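import Mathlib
import Pool.Agent.H.MP_a3a891_gt.A

set_option autoImplicit false

open Set

namespace Pool.Agent.Results.MP_a3a891_gt.Sine

/-- the local separating points of `C` -/
def locSep (C : Set (ℝ × ℝ)) : Set (ℝ × ℝ) :=
  {p ∈ C | ∃ V, IsOpen V ∧ p ∈ V ∧ ¬ IsPreconnected (connectedComponentIn (C ∩ V) p \ {p})}

theorem result : ∃ X : Set (ℝ × ℝ), IsCompact X ∧ IsConnected X ∧
    (∀ C ⊆ X, IsCompact C → IsConnected C → C.Nontrivial →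
      ∀ 𝓕 : Set (Set (ℝ × ℝ)), 𝓕.Countable → 𝓕.PairwiseDisjoint id →
        (∀ F ∈ 𝓕, IsClosed F ∧ F ⊆ C ∧ F ≠ C) → ¬ locSep C ⊆ ⋃₀ 𝓕) ∧
    ∃ A ⊆ X, IsConnected A ∧ ∃ a ∈ A, ∃ b ∈ A, a ≠ b ∧ ¬ JoinedIn A a b := by
  open Pool.Agent.H.MP_a3a891_gt in
  refine ⟨T, T_compact, T_conn, fun C hC h1 h2 h3 𝓕 f1 f2 f3 => sub hC h1 h2 h3 𝓕 f1 f2 f3,
    T, Subset.rfl, T_conn, (0, 0), Or.inr ⟨rfl, by norm_num⟩, g 1,
    Or.inl ⟨zero_lt_one, le_rfl, rfl⟩, fun h => ?_, not_joined⟩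
  exact zero_ne_one (congrArg Prod.fst h)

end Pool.Agent.Results.MP_a3a891_gt.Sine
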